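import Pool.Agent.CBG.StmtsA

/-!
# Squad CBG (MP_148648_gt), row QGL: the stability theorem for `TAct`
-/

set_option autoImplicit false
set_option maxSynthPendingDepth 3

open scoped Manifold ContDiff Topology
open Set Filter MeasureTheory

namespace Pool.Agent.CBG.H81

/-- **QGL** -/
theorem qgl (qlo : QloStmt) (pua : PuaStmt) (vfx : VfxStmt) (psi : PsiStmt) (dtx : DtxStmt)
    (max : MaxStmt) : QglStmt := by
  intro n E _ _ _ _ _ _ Φ hΦ g ε lam hε hlam h27 hbl hcs hsec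
  obtain ⟨p, hp⟩ := (max n E Φ hΦ g).2
  obtain ⟨ψ, X, hX, hψ0, hpar, heq, hvf⟩ := psi n E Φ hΦ p
  obtain ⟨hdat, hparT, hform⟩ := dtx n E Φ hΦ g ψ X hX hpar heq hvf
  have h0 : Φ 0 ∘ ψ = ψ := funext fun y => hΦ.zero (ψ y)
  have hψd : MDifferentiableAt 𝓘(ℝ, Ed n) (𝓡 n) ψ 0 :=
    (hpar.1.self_of_nhds).mdifferentiableAt (by simp)
  have hform0 := hform.self_of_nhds
  refine qlo n (fun t => pull g (Φ t ∘ ψ)) X hdat ε lam hε hlam h27 (fun t => hsec _ _ (hparT t))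
    (fun t v => ?_) (fun t => ?_) ?_
  · show pull g (Φ 0 ∘ ψ) 0 v v ≤ lam ^ 2 * pull g (Φ t ∘ ψ) 0 v v
    rw [h0]
    exact ((pua n E g).2.2.2.1 lam (Φ t) ψ 0
      (((vfx n E Φ hΦ).1 t).contMDiffAt.mdifferentiableAt (by simp)) hψd (hbl t) v).1
  · show CovLe ε (pull g (Φ 0 ∘ ψ)) (pull g (Φ t ∘ ψ)) 0
    rw [h0]
    exact hcs t ψ 0 hpar
  · filter_upwards [hform] with y hy
    have e1 : (fun a b : ℝ × ℝ => ∫ t, pull g (Φ t ∘ ψ) y (X a) (X b) ∂mu) =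
        fun a b => ∫ t, hh g Φ a b (Φ t (ψ y)) ∂mu := by
      funext a b
      exact integral_congr_ae (Eventually.of_forall fun t => hy t a b)
    have e2 : (fun a b : ℝ × ℝ => ∫ t, pull g (Φ t ∘ ψ) 0 (X a) (X b) ∂mu) =
        fun a b => ∫ t, hh g Φ a b (Φ t p) ∂mu := by
      funext a b
      refine integral_congr_ae (Eventually.of_forall fun t => ?_)
      have := hform0 t a b
      rw [hψ0] at this
      exact this
    show inv11 (fun a b : ℝ × ℝ => ∫ t, pull g (Φ t ∘ ψ) y (X a) (X b) ∂mu) ≤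
      inv11 (fun a b : ℝ × ℝ => ∫ t, pull g (Φ t ∘ ψ) 0 (X a) (X b) ∂mu)
    rw [e1, e2]
    exact hp (ψ y)

end Pool.Agent.CBG.H81
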