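import Pool.Agent.CBG.StmtsA

/-!
# Squad CBG (MP_148648_gt), row SYM: symmetry of the derivatives of a symmetric form
-/

set_option autoImplicit false
set_option maxSynthPendingDepth 3

open scoped Manifold ContDiff Topology
open Set Filter MeasureTheory

namespace Pool.Agent.CBG.H81

/-- the derivative of a function on which a functional vanishes locally -/
theorem lin_fderiv {V W : Type*} [NormedAddCommGroup V] [NormedSpace ℝ V] [NormedAddCommGroup W]
    [NormedSpace ℝ W] {F : V → W} {x : V} (hF : DifferentiableAt ℝ F x) (L : W →L[ℝ] ℝ)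
    (h : ∀ᶠ y in 𝓝 x, L (F y) = 0) (u : V) : L (fderiv ℝ F x u) = 0 := by
  have h1 : HasFDerivAt (fun y => L (F y)) (L.comp (fderiv ℝ F x)) x :=
    L.hasFDerivAt.comp x hF.hasFDerivAt
  have h2 : HasFDerivAt (fun y => L (F y)) (0 : V →L[ℝ] ℝ) x :=
    (hasFDerivAt_const (0 : ℝ) x).congr_of_eventuallyEq h
  have h3 := h1.unique h2
  have h4 := congrArg (fun A : V →L[ℝ] ℝ => A u) h3
  exact h4

/-- the functional `B ↦ B v w - B w v` -/
noncomputable def skw {V : Type*} [NormedAddCommGroup V] [NormedSpace ℝ V] (v w : V) :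
    Bil V →L[ℝ] ℝ :=
  (ContinuousLinearMap.apply ℝ ℝ w).comp (ContinuousLinearMap.apply ℝ (V →L[ℝ] ℝ) v) -
    (ContinuousLinearMap.apply ℝ ℝ v).comp (ContinuousLinearMap.apply ℝ (V →L[ℝ] ℝ) w)

theorem skw_apply {V : Type*} [NormedAddCommGroup V] [NormedSpace ℝ V] (v w : V) (B : Bil V) :
    skw v w B = B v w - B w v := rfl

/-- **SYM** -/
theorem sym : SymStmt := by
  intro n G hG hs
  have hd : ∀ᶠ y in 𝓝 (0 : Ed n), DifferentiableAt ℝ G y :=
    (hG.eventually (by simp)).mono fun y hy => hy.differentiableAt (by simp)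
  have h1 : ∀ᶠ y in 𝓝 (0 : Ed n), ∀ u v w : Ed n, fderiv ℝ G y u v w = fderiv ℝ G y u w v := by
    filter_upwards [hd, hs.eventually_nhds] with y hy hy' u v w
    have := lin_fderiv hy (skw v w) (hy'.mono fun z hz => by rw [skw_apply, hz, sub_self]) u
    rw [skw_apply, sub_eq_zero] at this
    exact this
  have hdd : DifferentiableAt ℝ (fderiv ℝ G) 0 :=
    (hG.fderiv_right (m := 1) (by norm_num)).differentiableAt (by simp)
  refine ⟨h1.self_of_nhds, fun u u' v w => ?_, fun u u' => ?_⟩
  · have := lin_fderiv hdd ((skw v w).comp (ContinuousLinearMap.apply ℝ (Bil (Ed n)) u'))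
      (h1.mono fun z hz => by
        show skw v w (fderiv ℝ G z u') = 0
        rw [skw_apply, hz, sub_self]) u
    have h2 : skw v w (fderiv ℝ (fderiv ℝ G) 0 u u') = 0 := this
    rw [skw_apply, sub_eq_zero] at h2
    exact h2
  · exact (hG.isSymmSndFDerivAt (by simp)) u u'

end Pool.Agent.CBG.H81
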